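import Mathlib

/-!
Simple modules over the rational incidence algebra of a locally finite poset.
-/

open CategoryTheory

namespace Pool.Agent.Lib.MP_70614a_al

variable {L : Type} [PartialOrder L] [LocallyFiniteOrder L] [DecidableEq L]

/-- The character `f ↦ f H H` of the incidence algebra. -/
def diagEval (H : L) : IncidenceAlgebra ℚ L →+* ℚ where
  toFun f := f H H
  map_one' := by simp
  map_mul' f g := by simp
  map_zero' := rfl
  map_add' _ _ := rfl

/-- The simple (left) module `S_H`: the line `ℚ` on which `f` acts as multiplication by `f H H`. -/
noncomputable def simpleMod (H : L) : ModuleCat.{0} (IncidenceAlgebra ℚ L) :=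
  (ModuleCat.restrictScalars (diagEval H)).obj (ModuleCat.of ℚ ℚ)

end Pool.Agent.Lib.MP_70614a_al
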