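import Mathlib

/-!
Finite facts about the dicyclic group of order 24 and its action on the plane over `ZMod 11`.
-/

namespace Pool.Agent.Lib.MP_70614a_al

open QuaternionGroup

/-- the dicyclic group of order 24 -/
abbrev A := QuaternionGroup 6

/-- a subgroup given by the list of its elements -/
def ofList (l : List A) (h1 : (1 : A) ∈ l) (h2 : ∀ x ∈ l, ∀ y ∈ l, x * y ∈ l)
    (h3 : ∀ x ∈ l, x⁻¹ ∈ l) : Subgroup A where
  carrier := {x | x ∈ l}
  one_mem' := h1
  mul_mem' := fun {x y} hx hy => h2 x hx y hy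
  inv_mem' := fun {x} hx => h3 x hx

lemma mem_ofList {l : List A} {h1 h2 h3} {x : A} : x ∈ ofList l h1 h2 h3 ↔ x ∈ l := Iff.rfl

instance (l : List A) (h1 h2 h3) (x : A) : Decidable (x ∈ ofList l h1 h2 h3) :=
  inferInstanceAs (Decidable (x ∈ l))

/-- the centre -/
abbrev ZA : Subgroup A := ofList [a 0, a 6] (by decide) (by decide) (by decide)
/-- the cyclic subgroup of order 6 -/
abbrev C6 : Subgroup A := ofList [a 0, a 2, a 4, a 6, a 8, a 10] (by decide) (by decide) (by decide)
/-- a cyclic subgroup of order 4 -/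
abbrev C4 : Subgroup A := ofList [a 0, a 3, a 6, a 9] (by decide) (by decide) (by decide)
/-- another cyclic subgroup of order 4 -/
abbrev C4' : Subgroup A := ofList [a 0, xa 0, a 6, xa 6] (by decide) (by decide) (by decide)
/-- a quaternion subgroup of order 8 -/
abbrev Q8 : Subgroup A :=
  ofList [a 0, a 3, a 6, a 9, xa 0, xa 3, xa 6, xa 9] (by decide) (by decide) (by decide)

/-- the data needed for one step up in the chain of complements -/
structure Step (Y C H : Subgroup A) : Prop where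
  zy : ∀ x, x ∈ ZA → x ∈ Y
  zc : ∀ x, x ∈ ZA → x ∈ C
  ncz : ∃ x, x ∈ C ∧ x ∉ ZA
  yh : ∀ x, x ∈ Y → x ∈ H
  nhy : ∃ x, x ∈ H ∧ x ∉ Y
  ch : ∀ x, x ∈ C → x ∈ H
  prod : ∀ x, x ∈ H → ∃ y, y ∈ Y ∧ y⁻¹ * x ∈ C
  norm : ∀ h, h ∈ H → ∀ c, c ∈ C → h * c * h⁻¹ ∈ C
  cov : ∀ c, c ∈ C → c ∉ ZA → ∀ d, d ∈ C → ∃ i : Fin 3, (c ^ (i : ℕ))⁻¹ * d ∈ ZA

lemma step1 : Step ZA C4' C4' := by
  constructor <;> decide +kernel

lemma step2 : Step C4' C4 Q8 := by
  constructor <;> decide +kernel

lemma step3 : Step Q8 C6 ⊤ := by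
  constructor <;> (try simp only [Subgroup.mem_top, implies_true, true_implies, true_and]) <;>
    decide +kernel

lemma sq_of_mul : ∀ b c : A, c ∈ ZA → (b * c) ^ 2 = a 6 → b ^ 2 = a 6 := by decide +kernel

lemma mem_C6 : ∀ b : A, b ^ 2 ≠ a 6 → (b ^ 3) ^ 2 ≠ a 6 → b ∈ C6 := by decide +kernel

lemma ZA_normal : ZA.Normal := ⟨by decide +kernel⟩

lemma card_C6 : Nat.card C6 = 6 := by
  rw [Nat.card_eq_fintype_card, Fintype.card_subtype]
  decide +kernel

lemma card_A : Nat.card A = 24 := by
  rw [Nat.card_eq_fintype_card, QuaternionGroup.card]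

/-- the plane -/
abbrev P := ZMod 11 × ZMod 11

/-- powers of a matrix of order 12 -/
def rot (i : ZMod 12) : P × P :=
  [((1, 0), (0, 1)), ((0, 10), (1, 5)), ((10, 6), (5, 2)), ((6, 9), (2, 5)), ((9, 6), (5, 1)),
    ((6, 10), (1, 0)), ((10, 0), (0, 10)), ((0, 1), (10, 6)), ((1, 5), (6, 9)), ((5, 2), (9, 6)),
    ((2, 5), (6, 10)), ((5, 1), (10, 0))].getD i.val ((1, 0), (0, 1))

/-- matrix product -/
def mmul (m n : P × P) : P × P :=
  ((m.1.1 * n.1.1 + m.1.2 * n.2.1, m.1.1 * n.1.2 + m.1.2 * n.2.2),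
   (m.2.1 * n.1.1 + m.2.2 * n.2.1, m.2.1 * n.1.2 + m.2.2 * n.2.2))

/-- the matrix representation -/
def mat : A → P × P
  | a i => rot i
  | xa i => mmul ((2, 2), (3, 9)) (rot i)

/-- matrix times vector -/
def app (m : P × P) (v : P) : P := (m.1.1 * v.1 + m.1.2 * v.2, m.2.1 * v.1 + m.2.2 * v.2)

lemma mat_mul : ∀ b c : A, mat (b * c) = mmul (mat b) (mat c) := by decide +kernel

lemma app_mul (b c : A) (v : P) : app (mat (b * c)) v = app (mat b) (app (mat c) v) := by
  rw [mat_mul]
  simp only [app, mmul, Prod.mk.injEq]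
  constructor <;> ring

lemma app_one (v : P) : app (mat 1) v = v := by
  have : mat 1 = ((1, 0), (0, 1)) := by decide +kernel
  rw [this]; simp [app]

lemma app_add (m : P × P) (v w : P) : app m (v + w) = app m v + app m w := by
  simp only [app, Prod.mk_add_mk, Prod.fst_add, Prod.snd_add, Prod.mk.injEq]
  constructor <;> ring

lemma app_fpf : ∀ (b : A) (v : P), app (mat b) v = v → b = 1 ∨ v = 0 := by decide +kernel

lemma app_irr : ∀ (v : P) (k : ZMod 11), app (mat (a 4)) v = (k * v.1, k * v.2) → v = 0 := by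
  decide +kernel

/-- the action as a homomorphism to the automorphism group -/
def φ : A →* MulAut (Multiplicative P) where
  toFun b :=
    { toFun := fun v => Multiplicative.ofAdd (app (mat b) v.toAdd)
      invFun := fun v => Multiplicative.ofAdd (app (mat b⁻¹) v.toAdd)
      left_inv := fun v => by
        simp only [toAdd_ofAdd]; rw [← app_mul, inv_mul_cancel, app_one]; rfl
      right_inv := fun v => by
        simp only [toAdd_ofAdd]; rw [← app_mul, mul_inv_cancel, app_one]; rfl
      map_mul' := fun v w => by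
        simp only [toAdd_mul, app_add, ofAdd_add] }
  map_one' := by
    refine MulEquiv.ext fun v => ?_
    change Multiplicative.ofAdd (app (mat 1) v.toAdd) = v
    rw [app_one]; rfl
  map_mul' b c := by
    refine MulEquiv.ext fun v => ?_
    change Multiplicative.ofAdd (app (mat (b * c)) v.toAdd) = _
    rw [app_mul]; rfl

lemma φ_apply (b : A) (v : Multiplicative P) :
    φ b v = Multiplicative.ofAdd (app (mat b) v.toAdd) := rfl

/-- The abstract properties of the group that are used. -/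
structure Setup {G : Type} [Group G] (π : G →* A) (s : A →* G) : Prop where
  sec : ∀ b, π (s b) = b
  comm : ∀ u v, π u = 1 → π v = 1 → u * v = v * u
  card : Nat.card π.ker = 121
  fpf : ∀ g w, π w = 1 → g * w * g⁻¹ = w → π g = 1 ∨ w = 1
  irr : ∀ g, π g = a 4 → ∀ W : Subgroup G, W ≤ π.ker → (∀ w ∈ W, g * w * g⁻¹ ∈ W) →
    W = ⊥ ∨ W = π.ker

/-- the group of order 2904 -/
abbrev G0 : Type := Multiplicative P ⋊[φ] A

instance : Finite G0 := Finite.of_equiv _ SemidirectProduct.equivProd.symm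

open SemidirectProduct in
lemma ker_elt {u : G0} (hu : rightHom u = 1) : ∃ n, u = inl n := by
  have : u ∈ (rightHom : G0 →* A).ker := hu
  rw [← range_inl_eq_ker_rightHom] at this
  obtain ⟨n, hn⟩ := this
  exact ⟨n, hn.symm⟩

open SemidirectProduct in
lemma conj_inl (g : G0) (n : Multiplicative P) : g * inl n * g⁻¹ = inl (φ g.right n) := by
  ext1
  · simp only [mul_left, left_inl, right_inl, mul_right, mul_one, inv_left]
    rw [← MulAut.mul_apply, ← map_mul, mul_inv_cancel, map_one, MulAut.one_apply,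
      mul_comm g.left, mul_assoc, mul_inv_cancel, mul_one]
  · simp

open SemidirectProduct in
lemma card_ker : Nat.card (rightHom : G0 →* A).ker = 121 := by
  rw [← range_inl_eq_ker_rightHom, ← Nat.card_congr (MonoidHom.ofInjective inl_injective).toEquiv]
  simp

open SemidirectProduct in
lemma setup : Setup (rightHom : G0 →* A) inr where
  sec := rightHom_inr
  comm u v hu hv := by
    obtain ⟨n, rfl⟩ := ker_elt hu
    obtain ⟨m, rfl⟩ := ker_elt hv
    rw [← map_mul, ← map_mul, mul_comm]
  card := card_ker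
  fpf g w hw h := by
    obtain ⟨n, rfl⟩ := ker_elt hw
    rw [conj_inl, inl_inj, φ_apply] at h
    rcases app_fpf g.right n.toAdd (congrArg Multiplicative.toAdd h) with h1 | h1
    · exact Or.inl h1
    · right
      have : n = 1 := h1
      rw [this, map_one]
  irr g hg W hW hinv := by
    by_contra hc
    rw [not_or] at hc
    obtain ⟨w, hw, hw1⟩ := (Subgroup.bot_or_exists_ne_one W).resolve_left hc.1
    obtain ⟨n, rfl⟩ := ker_elt (hW hw)
    have hdvd : Nat.card W ∣ 11 ^ 2 := by
      have := Subgroup.card_dvd_of_le hW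
      rwa [card_ker] at this
    have hz : Subgroup.zpowers (inl n : G0) ≤ W := (Subgroup.zpowers_le).2 hw
    have hzb : Nat.card (Subgroup.zpowers (inl n : G0)) ≠ 1 := by
      rw [Ne, Subgroup.card_eq_one, Subgroup.zpowers_eq_bot]; exact hw1
    obtain ⟨i, hi, hWi⟩ := (Nat.dvd_prime_pow (by norm_num)).1 hdvd
    have hW11 : Nat.card W ∣ 11 := by
      interval_cases i
      · rw [hWi]; simp
      · rw [hWi]; simp
      · exfalso
        exact hc.2 (Subgroup.eq_of_le_of_card_ge hW (by rw [card_ker, hWi]; norm_num))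
    have h11 : Nat.card (Subgroup.zpowers (inl n : G0)) = 11 :=
      ((Nat.dvd_prime (by norm_num)).1 ((Subgroup.card_dvd_of_le hz).trans hW11)).resolve_left hzb
    have heq := Subgroup.eq_of_le_of_card_ge hz (by rw [h11]; exact Nat.le_of_dvd (by norm_num) hW11)
    have h2 := hinv _ hw
    rw [← heq, conj_inl, Subgroup.mem_zpowers_iff] at h2
    obtain ⟨k, hk⟩ := h2
    rw [← map_zpow, inl_inj, φ_apply, show g.right = a 4 from hg] at hk
    have h3 := congrArg Multiplicative.toAdd hk
    rw [toAdd_zpow, toAdd_ofAdd] at h3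
    have h4 := app_irr n.toAdd (k : ZMod 11) (by rw [← h3]; ext <;> simp)
    have : n = 1 := h4
    exact hw1 (by rw [this, map_one])

end Pool.Agent.Lib.MP_70614a_al
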