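import Pool.Agent.Lib.MP_70614a_al.Modules

/-!
Vanishing and non-vanishing of `Ext` between simple modules over the incidence algebra of a finite
lattice (a module-theoretic form of the homotopy complementation formula).
-/

open CategoryTheory Abelian

set_option linter.unusedSectionVars false
set_option linter.unusedVariables false

namespace Pool.Agent.Lib.MP_70614a_al

variable {L : Type} [Lattice L] [LocallyFiniteOrder L] [DecidableEq L] [Fintype L]

/-- shorthand -/
abbrev V (K : L) (n : ℕ) (C : Set L) : Prop := Van (simpleMod K) n C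

lemma point_of_Iic {K H : L} {n : ℕ} (h1 : V K n (Set.Iic H))
    (h2 : ∀ m, m + 1 = n → ∀ x < H, V K m {x}) : V K n {H} := by
  refine van_upper (C := Set.Iic H) (D := Set.Iio H) Set.ordConnected_Iic ?_ ?_ ?_ h1
  · intro a
    simp only [Set.mem_Iic, Set.mem_Iio, Set.mem_singleton_iff]
    exact le_iff_lt_or_eq
  · rintro a rfl b hb hab
    exact absurd hab (not_le_of_gt hb)
  · intro m hm
    exact van_of_points _ (h2 m hm)

lemma van_not_ge {K H : L} (h : ¬ K ≤ H) (n : ℕ) : V K n {H} := by
  induction H using WellFoundedLT.induction generalizing n with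
  | ind H ih =>
  refine point_of_Iic (van_Iic (fun e => h e.ge) n) fun m _ x hx => ih x hx ?_ m
  exact fun h1 => h (h1.trans hx.le)

lemma van_rank (ρ : L → ℕ) (hρ : StrictMono ρ) {K H : L} {n : ℕ} (h : ρ H < ρ K + n) :
    V K n {H} := by
  induction n generalizing H with
  | zero =>
    refine point_of_Iic (van_Iic ?_ 0) fun m hm => absurd hm (by omega)
    rintro rfl
    omega
  | succ n ih =>
    refine point_of_Iic (van_Iic_succ H n) fun m hm x hx => ?_
    obtain rfl : m = n := by omega
    have := hρ hx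
    exact ih (by omega)

lemma conv_fiber (a b : L) : ({x | x ⊔ a = b} : Set L).OrdConnected :=
  ⟨fun x hx y hy z hz => le_antisymm
    ((sup_le_sup_right hz.2 a).trans (le_of_eq hy)) ((ge_of_eq hx).trans (sup_le_sup_right hz.1 a))⟩

lemma weisner {K a : L} (ha : ¬ a ≤ K) (b : L) (n : ℕ) : V K n {x | x ⊔ a = b} := by
  induction b using WellFoundedLT.induction generalizing n with
  | ind b ih =>
  by_cases hab : a ≤ b
  · refine van_upper (C := Set.Iic b) (D := {x | x ≤ b ∧ x ⊔ a ≠ b}) Set.ordConnected_Iic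
      ?_ ?_ ?_ (van_Iic ?_ n)
    · intro x
      simp only [Set.mem_Iic, Set.mem_ofPred_eq]
      constructor
      · tauto
      · rintro (h | h)
        · exact h.1
        · exact h ▸ le_sup_left
    · rintro x hx y ⟨hy1, hy2⟩ hxy
      exact hy2 (le_antisymm (sup_le hy1 hab) ((ge_of_eq hx).trans (sup_le_sup_right hxy a)))
    · intro m _
      refine van_of_fibers (fun x => x ⊔ a) (fun x y h => sup_le_sup_right h a) _ fun b' => ?_
      by_cases hb' : b' < b
      · convert ih b' hb' m using 1
        ext x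
        simp only [Set.mem_ofPred_eq]
        refine ⟨fun h => h.2, fun h => ⟨⟨?_, ?_⟩, h⟩⟩
        · exact (le_sup_left.trans h.le).trans hb'.le
        · rw [h]; exact hb'.ne
      · convert van_empty (Y := simpleMod K) m using 1
        ext x
        simp only [Set.mem_ofPred_eq, Set.mem_empty_iff_false, iff_false]
        rintro ⟨⟨h1, h2⟩, rfl⟩
        exact hb' (lt_of_le_of_ne (sup_le h1 hab) h2)
    · rintro rfl
      exact ha hab
  · convert van_empty (Y := simpleMod K) n using 1
    ext x
    simp only [Set.mem_ofPred_eq, Set.mem_empty_iff_false, iff_false]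
    rintro rfl
    exact hab le_sup_right

lemma fiber_split {a H : L} (haH : a ≤ H) (x : L) :
    x ∈ ({x | x ⊔ a = H} : Set L) ↔ x ∈ ({x | x < H ∧ x ⊔ a = H} : Set L) ∨ x ∈ ({H} : Set L) := by
  simp only [Set.mem_ofPred_eq, Set.mem_singleton_iff]
  constructor
  · intro h
    rcases (le_sup_left.trans h.le).lt_or_eq with h1 | h1
    · exact Or.inl ⟨h1, h⟩
    · exact Or.inr h1
  · rintro (h | rfl)
    · exact h.2
    · exact sup_eq_left.2 haH

lemma van_up {K a H : L} (ha : ¬ a ≤ K) (haH : a ≤ H) {n : ℕ}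
    (h : ∀ m, m + 1 = n → ∀ x, K ≤ x → x < H → x ⊔ a = H → V K m {x}) : V K n {H} := by
  refine van_upper (conv_fiber a H) (fiber_split haH) ?_ ?_ (weisner ha H n)
  · rintro x rfl y hy hxy
    exact absurd hxy (not_le_of_gt hy.1)
  · intro m hm
    refine van_of_points _ fun x hx => ?_
    by_cases hK : K ≤ x
    · exact h m hm x hK hx.1 hx.2
    · exact van_not_ge hK m

lemma van_nocomp {K H a : L} (hKa : K < a) (haH : a ≤ H)
    (h : ∀ y, y ⊓ a = K → y ⊔ a ≠ H) (n : ℕ) : V K n {H} := by
  induction H using WellFoundedLT.induction generalizing a n with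
  | ind H ih =>
  refine van_up (not_le_of_gt hKa) haH fun m _ x hKx hx hxa => ?_
  refine ih x hx (a := x ⊓ a) ?_ inf_le_left ?_ m
  · exact lt_of_le_of_ne (le_inf hKx hKa.le) fun e => h x e.symm hxa
  · intro y hy1 hy2
    have hyx : y ≤ x := le_sup_left.trans hy2.le
    refine h y ?_ ?_
    · rw [← hy1, ← inf_assoc, inf_eq_left.2 hyx]
    · rw [← hxa, ← hy2, sup_assoc, sup_eq_right.2 (inf_le_right (a := x) (b := a))]

lemma nonvan_up {K a H y : L} (ha : ¬ a ≤ K) (haH : a ≤ H)
    (hanti : IsAntichain (· ≤ ·) {x | K ≤ x ∧ x < H ∧ x ⊔ a = H})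
    (hy : K ≤ y ∧ y < H ∧ y ⊔ a = H) {n : ℕ} (hn : ¬ V K n {y}) : ¬ V K (n + 1) {H} := by
  intro h
  have hle : ∀ x ∈ ({H} : Set L), ∀ y ∈ ({x | x < H ∧ x ⊔ a = H} : Set L), ¬ x ≤ y := by
    rintro x rfl y hy hxy
    exact absurd hxy (not_le_of_gt hy.1)
  have h1 : V K n {x | x < H ∧ x ⊔ a = H} :=
    van_lower (conv_fiber a H) (fiber_split haH) hle (weisner ha H n) h
  refine hn (van_point_of_antichain hanti hy ?_)
  refine van_upper (D := {x | ¬ K ≤ x ∧ x < H ∧ x ⊔ a = H})
    (conv_lower (conv_fiber a H) (fiber_split haH) hle) ?_ ?_ ?_ h1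
  · intro x
    simp only [Set.mem_ofPred_eq]
    tauto
  · intro x hx z hz hxz
    exact hz.1 (hx.1.trans hxz)
  · intro m _
    exact van_of_points _ fun x hx => van_not_ge hx.1 m

end Pool.Agent.Lib.MP_70614a_al
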