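import Pool.Agent.Lib.MP_70614a_al.Lattice
import Pool.Agent.Lib.MP_70614a_al.Dic

/-!
The Ext computations in the subgroup lattice of the group of order 2904.
-/

open CategoryTheory Abelian QuaternionGroup ArithmeticFunction

set_option linter.unusedSectionVars false

namespace Pool.Agent.Lib.MP_70614a_al

/-- number of prime factors of the order -/
noncomputable def om {Γ : Type} [Group Γ] (x : Subgroup Γ) : ℕ := cardFactors (Nat.card x)

lemma om_mono {Γ : Type} [Group Γ] [Finite Γ] {x y : Subgroup Γ} (h : x ≤ y) : om x ≤ om y := by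
  obtain ⟨c, hc⟩ := Subgroup.card_dvd_of_le h
  have hy : Nat.card y ≠ 0 := Nat.card_pos.ne'
  have hc0 : c ≠ 0 := by rintro rfl; simp at hc; exact hy (by simp [hc])
  unfold om
  rw [hc, cardFactors_mul Nat.card_pos.ne' hc0]
  omega

lemma om_eq {Γ : Type} [Group Γ] [Finite Γ] {x y : Subgroup Γ} (h : x ≤ y) (h2 : om y ≤ om x) :
    x = y := by
  obtain ⟨c, hc⟩ := Subgroup.card_dvd_of_le h
  have hy : Nat.card y ≠ 0 := Nat.card_pos.ne'
  have hc0 : c ≠ 0 := by rintro rfl; simp at hc; exact hy (by simp [hc])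
  unfold om at h2
  rw [hc, cardFactors_mul Nat.card_pos.ne' hc0] at h2
  have h3 : cardFactors c = 0 := by omega
  rcases cardFactors_eq_zero_iff_eq_zero_or_one.1 h3 with h4 | h4
  · exact absurd h4 hc0
  · exact Subgroup.eq_of_le_of_card_ge h (by rw [hc, h4, mul_one])

lemma om_bot {Γ : Type} [Group Γ] : om (⊥ : Subgroup Γ) = 0 := by simp [om]

lemma om_C6 : om C6 = 2 := by
  rw [om, card_C6, show 6 = 2 * 3 by rfl, cardFactors_mul (by norm_num) (by norm_num),
    cardFactors_apply_prime Nat.prime_two, cardFactors_apply_prime Nat.prime_three]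

lemma om_topA : om (⊤ : Subgroup A) = 4 := by
  rw [om, Subgroup.card_top, card_A, show 24 = 2 ^ 3 * 3 by rfl,
    cardFactors_mul (by norm_num) (by norm_num),
    cardFactors_apply_prime_pow Nat.prime_two, cardFactors_apply_prime Nat.prime_three]

variable {G : Type} [Group G] [Finite G] {π : G →* A} {s : A →* G}

lemma om_ker (h : Setup π s) : om π.ker = 2 := by
  rw [om, h.card, show 121 = 11 ^ 2 by rfl, cardFactors_apply_prime_pow (by norm_num)]

/-- the rank function on the subgroup lattice -/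
noncomputable def rk (π : G →* A) (x : Subgroup G) : ℕ := om (x ⊓ π.ker) + om (x.map π)

lemma rk_strictMono (π : G →* A) : StrictMono (rk π) := by
  intro x y hxy
  have h1 : x ⊓ π.ker ≤ y ⊓ π.ker := inf_le_inf_right _ hxy.le
  have h2 : x.map π ≤ y.map π := Subgroup.map_mono hxy.le
  have h3 := om_mono h1
  have h4 := om_mono h2
  unfold rk
  by_contra hc
  have e1 := om_eq h1 (by omega)
  have e2 := om_eq h2 (by omega)
  refine hxy.not_ge fun g hg => ?_
  have : π g ∈ x.map π := e2 ▸ Subgroup.mem_map_of_mem π hg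
  obtain ⟨t, ht, htg⟩ := this
  have h5 : t⁻¹ * g ∈ y ⊓ π.ker :=
    ⟨y.mul_mem (y.inv_mem (hxy.le ht)) hg, by simp [htg]⟩
  rw [← e1] at h5
  simpa using x.mul_mem ht h5.1

lemma ker_ne_bot (h : Setup π s) : π.ker ≠ ⊥ := by
  intro e
  have := om_ker h
  rw [e, om_bot] at this
  omega

lemma inf_ker_cases (h : Setup π s) {x : Subgroup G} (hx : a 4 ∈ x.map π) :
    x ⊓ π.ker = ⊥ ∨ π.ker ≤ x := by
  obtain ⟨g, hg, hg4⟩ := hx
  rcases h.irr g hg4 (x ⊓ π.ker) inf_le_right (fun w hw => ⟨x.mul_mem (x.mul_mem hg hw.1)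
    (x.inv_mem hg), by
      have : π w = 1 := hw.2
      simp [this]⟩) with h1 | h1
  · exact Or.inl h1
  · exact Or.inr (h1 ▸ inf_le_left)

variable [LocallyFiniteOrder (Subgroup G)] [DecidableEq (Subgroup G)] [Fintype (Subgroup G)]

theorem upper (h : Setup π s) {K H : Subgroup G} (hKH : K ≤ H)
    (hnorm : ∀ g ∈ H, ∀ k ∈ K, g * k * g⁻¹ ∈ K) {n : ℕ} (hn : 4 ≤ n) : V K n {H} := by
  by_cases hK : K ≤ π.ker
  · by_cases hsq : ∃ g ∈ H, π g ^ 2 = a 6
    · obtain ⟨g, hg, hg2⟩ := hsq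
      refine van_nocomp (a := H ⊓ ZA.comap π) ?_ inf_le_left ?_ n
      · refine lt_of_le_of_ne (le_inf hKH fun k hk => ?_) fun e => ?_
        · have : π k = 1 := hK hk
          rw [Subgroup.mem_comap, this]; exact ZA.one_mem
        · have h1 : g ^ 2 ∈ H ⊓ ZA.comap π :=
            ⟨H.pow_mem hg 2, (show π (g ^ 2) ∈ ZA by rw [map_pow, hg2]; decide)⟩
          rw [← e] at h1
          have h2 : π (g ^ 2) = 1 := hK h1
          rw [map_pow, hg2] at h2
          exact absurd h2 (by decide)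
      · intro y hy1 hy2
        have h1 : π g ∈ y.map π ⊔ ZA := by
          have h2 : H.map π ≤ y.map π ⊔ ZA := by
            rw [← hy2, Subgroup.map_sup]
            refine sup_le_sup_left ?_ _
            rw [Subgroup.map_le_iff_le_comap]
            exact inf_le_right
          exact h2 (Subgroup.mem_map_of_mem π hg)
        have := ZA_normal
        obtain ⟨b, ⟨t, ht, rfl⟩, c, hc, hbc⟩ := Subgroup.mem_sup_of_normal_right.1 h1
        have h3 : π t ^ 2 = a 6 := sq_of_mul _ c hc (by rw [hbc, hg2])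
        have hyH : y ≤ H := hy2 ▸ le_sup_left
        have h4 : t ^ 2 ∈ y ⊓ (H ⊓ ZA.comap π) :=
          ⟨y.pow_mem ht 2, H.pow_mem (hyH ht) 2,
            (show π (t ^ 2) ∈ ZA by rw [map_pow, h3]; decide)⟩
        rw [hy1] at h4
        have h5 : π (t ^ 2) = 1 := hK h4
        rw [map_pow, h3] at h5
        exact absurd h5 (by decide)
    · have h1 : H.map π ≤ C6 := by
        rintro b ⟨g, hg, rfl⟩
        refine mem_C6 _ (fun e => hsq ⟨g, hg, e⟩) fun e => hsq ⟨g ^ 3, H.pow_mem hg 3, ?_⟩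
        rw [map_pow, e]
      have h2 := om_mono h1
      have h3 := om_mono (inf_le_right : H ⊓ π.ker ≤ π.ker)
      rw [om_C6] at h2
      rw [om_ker h] at h3
      by_cases hr : rk π H < rk π K + n
      · exact van_rank _ (rk_strictMono π) hr
      · have h4 : rk π H = om (H ⊓ π.ker) + om (H.map π) := rfl
        have e1 : H ⊓ π.ker = π.ker := om_eq inf_le_right (by rw [om_ker h]; omega)
        have e2 : H.map π = C6 := om_eq h1 (by rw [om_C6]; omega)
        have e3 : K = ⊥ := by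
          by_contra hc
          have := rk_strictMono π (bot_lt_iff_ne_bot.2 hc)
          omega
        refine van_up (a := π.ker) ?_ (e1 ▸ inf_le_left) fun m hm x _ hx hxa => ?_
        · rw [e3, le_bot_iff]; exact ker_ne_bot h
        · have e4 : x.map π = C6 := by
            rw [← e2, ← hxa, Subgroup.map_sup, (Subgroup.map_eq_bot_iff _).2 le_rfl, sup_bot_eq]
          rcases inf_ker_cases h (x := x) (by rw [e4]; decide) with h5 | h5
          · refine van_rank _ (rk_strictMono π) ?_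
            have : rk π x = 2 := by rw [rk, h5, e4, om_bot, om_C6]
            omega
          · rw [sup_eq_left.2 h5] at hxa
            exact absurd hxa hx.ne
  · obtain ⟨k, hk, hk1⟩ := SetLike.not_le_iff_exists.1 hK
    have hk1' : π k ≠ 1 := hk1
    let f : ↥(H ⊓ π.ker) → ↥(H ⊓ π.ker) := fun w => ⟨k * w * k⁻¹ * (w : G)⁻¹,
      H.mul_mem (H.mul_mem (H.mul_mem (hKH hk) w.2.1) (H.inv_mem (hKH hk))) (H.inv_mem w.2.1), by
        have : π w = 1 := w.2.2
        simp [this]⟩
    have hf : Function.Injective f := by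
      intro w w' hww
      have e : k * w * k⁻¹ * (w : G)⁻¹ = k * w' * k⁻¹ * (w' : G)⁻¹ := congrArg Subtype.val hww
      have hw : π w = 1 := w.2.2
      have hw' : π w' = 1 := w'.2.2
      have c1 := h.comm (k * w' * k⁻¹) ((w' : G)⁻¹ * w) (by simp [hw']) (by simp [hw, hw'])
      have e2 : k * ((w' : G)⁻¹ * w) * k⁻¹ = (w' : G)⁻¹ * w := by
        calc k * ((w' : G)⁻¹ * w) * k⁻¹
            = (k * w' * k⁻¹)⁻¹ * (k * w * k⁻¹ * (w : G)⁻¹) * w := by group
          _ = (k * w' * k⁻¹)⁻¹ * (k * w' * k⁻¹ * (w' : G)⁻¹) * w := by rw [e]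
          _ = (w' : G)⁻¹ * w := by group
      rcases h.fpf k _ (by simp [hw, hw']) e2 with h1 | h1
      · exact absurd h1 hk1'
      · exact Subtype.ext (inv_mul_eq_one.1 h1).symm
    have hWK : H ⊓ π.ker ≤ K ⊓ π.ker := by
      intro w hw
      obtain ⟨v, hv⟩ := Finite.surjective_of_injective hf ⟨w, hw⟩
      have e : k * v * k⁻¹ * (v : G)⁻¹ = w := congrArg Subtype.val hv
      refine ⟨?_, hw.2⟩
      have h1 := K.mul_mem hk (hnorm v v.2.1 _ (K.inv_mem hk))
      rw [← e]
      show k * v * k⁻¹ * (v : G)⁻¹ ∈ K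
      simpa only [mul_assoc] using h1
    have h1 := om_mono hWK
    have h2 := om_mono (le_top : H.map π ≤ ⊤)
    rw [om_topA] at h2
    have h3 : 0 < om (K.map π) := by
      by_contra hc
      have := om_eq (bot_le : ⊥ ≤ K.map π) (by rw [om_bot]; omega)
      have h4 : π k ∈ K.map π := Subgroup.mem_map_of_mem π hk
      rw [← this] at h4
      exact hk1' h4
    refine van_rank _ (rk_strictMono π) ?_
    unfold rk
    omega

lemma antichain_of {K c H : Subgroup G} (hnorm : ∀ g ∈ H, ∀ t ∈ c, g * t * g⁻¹ ∈ c)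
    (hinf : ∀ x, K ≤ x → x < H → x ⊔ c = H → x ⊓ c ≤ K) :
    IsAntichain (· ≤ ·) {x | K ≤ x ∧ x < H ∧ x ⊔ c = H} := by
  intro x hx y hy hne hxy
  refine hne (le_antisymm hxy fun g hg => ?_)
  have h1 : g ∈ ((x ⊔ c : Subgroup G) : Set G) := by rw [hx.2.2]; exact hy.2.1.le hg
  rw [Subgroup.coe_mul_of_left_le_normalizer_right x c
    (Subgroup.le_normalizer_iff.2 fun t ht => hnorm t (hx.2.1.le ht))] at h1
  obtain ⟨u, hu, t, ht, rfl⟩ := h1
  have h2 : t ∈ y ⊓ c := ⟨by simpa using y.mul_mem (y.inv_mem (hxy hu)) hg, ht⟩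
  exact x.mul_mem hu (hx.1 (hinf y hy.1 hy.2.1 hy.2.2 h2))

lemma step_up (h : Setup π s) {Y C H : Subgroup A} (st : Step Y C H) {n : ℕ}
    (hn : ¬ V (ZA.map s) n {Y.map s}) : ¬ V (ZA.map s) (n + 1) {H.map s} := by
  have hs : Function.Injective s := fun b c e => by rw [← h.sec b, e, h.sec]
  refine nonvan_up (a := C.map s) ?_ (Subgroup.map_mono st.ch) (antichain_of ?_ ?_)
    ⟨Subgroup.map_mono st.zy, ?_, ?_⟩ hn
  · rw [Subgroup.map_le_map_iff_of_injective hs]
    obtain ⟨x, h1, h2⟩ := st.ncz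
    exact fun e => h2 (e h1)
  · rintro _ ⟨g, hg, rfl⟩ _ ⟨t, ht, rfl⟩
    exact ⟨_, st.norm g hg t ht, by simp⟩
  · rintro x hx1 hx2 hx3 _ ⟨ht1, c, hc, rfl⟩
    by_contra hcz
    have hcz' : c ∉ ZA := fun e => hcz (Subgroup.mem_map_of_mem s e)
    have : C.map s ≤ x := by
      rintro _ ⟨d, hd, rfl⟩
      obtain ⟨i, hi⟩ := st.cov c hc hcz' d hd
      have h1 := x.mul_mem (x.pow_mem ht1 i) (hx1 (Subgroup.mem_map_of_mem s hi))
      simpa using h1
    rw [sup_eq_left.2 this] at hx3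
    exact hx2.ne hx3
  · refine lt_of_le_of_ne (Subgroup.map_mono st.yh) fun e => ?_
    obtain ⟨x, h1, h2⟩ := st.nhy
    rw [(Subgroup.map_injective hs).eq_iff] at e
    exact h2 (e ▸ h1)
  · rw [← Subgroup.map_sup]
    congr 1
    refine le_antisymm (sup_le st.yh st.ch) fun x hx => ?_
    obtain ⟨y, hy, hy2⟩ := st.prod x hx
    simpa using (Y ⊔ C).mul_mem (Subgroup.mem_sup_left hy) (Subgroup.mem_sup_right hy2)

theorem lower (h : Setup π s) : ¬ V (ZA.map s) 4 {⊤} := by
  have h3 := step_up h step3 (step_up h step2 (step_up h step1 (not_van_zero _)))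
  have hker : ∀ g : G, (s (π g))⁻¹ * g ∈ π.ker := fun g => by simp [h.sec]
  obtain ⟨w, hw, hw1⟩ := (Subgroup.bot_or_exists_ne_one π.ker).resolve_left (ker_ne_bot h)
  have hw' : π w = 1 := hw
  have hws : ∀ B : Subgroup A, w ∉ B.map s := by
    rintro B ⟨b, -, rfl⟩
    rw [h.sec] at hw'
    exact hw1 (by rw [hw', map_one])
  have hkc : π.ker ≤ ZA.comap π := fun t ht => by
    have : π t = 1 := ht
    rw [Subgroup.mem_comap, this]; exact ZA.one_mem
  refine nonvan_up (K := ZA.map s) (a := ZA.comap π) (H := ⊤) (y := (⊤ : Subgroup A).map s)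
    (fun e => hws _ (SetLike.le_def.1 e (hkc hw))) le_top (antichain_of ?_ ?_)
    ⟨Subgroup.map_mono le_top, ?_, ?_⟩ h3
  · intro g _ t ht
    have := ZA_normal
    exact (Subgroup.normal_comap π).conj_mem t ht g
  · intro x hx1 hx2 hx3 t ht
    have hZ : ZA ≤ x.map π := fun c hc => ⟨s c, hx1 (Subgroup.mem_map_of_mem s hc), h.sec c⟩
    have h4 : a 4 ∈ x.map π := by
      have h5 : (⊤ : Subgroup G).map π ≤ x.map π := by
        rw [← hx3, Subgroup.map_sup]
        exact sup_le le_rfl ((Subgroup.map_comap_le π ZA).trans hZ)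
      exact h5 ⟨s (a 4), trivial, h.sec _⟩
    rcases inf_ker_cases h h4 with h6 | h6
    · have h7 : s (π t) ∈ ZA.map s := Subgroup.mem_map_of_mem s ht.2
      have h8 : (s (π t))⁻¹ * t ∈ x ⊓ π.ker := ⟨x.mul_mem (x.inv_mem (hx1 h7)) ht.1, hker t⟩
      rw [h6, Subgroup.mem_bot, inv_mul_eq_one] at h8
      exact h8 ▸ h7
    · have : ZA.comap π ≤ x := fun u hu => by
        simpa using x.mul_mem (hx1 (Subgroup.mem_map_of_mem s hu)) (h6 (hker u))
      rw [sup_eq_left.2 this] at hx3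
      exact absurd hx3 hx2.ne
  · exact lt_of_le_of_ne le_top fun e => hws ⊤ (e ▸ Subgroup.mem_top w)
  · rw [eq_top_iff]
    intro g _
    simpa using Subgroup.mul_mem _
      (Subgroup.mem_sup_left (Subgroup.mem_map_of_mem s (Subgroup.mem_top (π g))))
      (Subgroup.mem_sup_right (hkc (hker g)))

end Pool.Agent.Lib.MP_70614a_al
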