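import Pool.Agent.Lib.MP_70614a_al.Defs

/-!
The modules `ℚ^C` attached to order-convex subsets `C` of a finite poset, and the long exact
sequences of `Ext` between them.
-/

open CategoryTheory Abelian

namespace Pool.Agent.Lib.MP_70614a_al

variable {L : Type} [PartialOrder L] [LocallyFiniteOrder L] [DecidableEq L] [Fintype L]

omit [DecidableEq L] in
lemma mul_apply' (f g : IncidenceAlgebra ℚ L) (a b : L) :
    (f * g) a b = ∑ x, f a x * g x b := by
  rw [IncidenceAlgebra.mul_apply]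
  refine Finset.sum_subset (Finset.subset_univ _) fun x _ hx => ?_
  rw [Finset.mem_Icc, not_and_or] at hx
  rcases hx with hx | hx
  · rw [IncidenceAlgebra.apply_eq_zero_of_not_le hx, zero_mul]
  · rw [IncidenceAlgebra.apply_eq_zero_of_not_le hx g, mul_zero]

/-- functions supported on `C` -/
def supp (C : Set L) : AddSubgroup (L → ℚ) where
  carrier := {v | ∀ a, a ∉ C → v a = 0}
  add_mem' := fun {v w} hv hw a ha => by simp [hv a ha, hw a ha]
  zero_mem' := fun _ _ => rfl
  neg_mem' := fun {v} hv a ha => by simp [hv a ha]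

/-- the underlying group of the module attached to `C` -/
def Md (C : Set L) (_h : C.OrdConnected) : Type := supp C

instance (C : Set L) (h : C.OrdConnected) : AddCommGroup (Md C h) :=
  inferInstanceAs (AddCommGroup (supp C))

/-- coordinates -/
def Md.co {C : Set L} {h : C.OrdConnected} (v : Md C h) : L → ℚ := (show supp C from v).1

omit [LocallyFiniteOrder L] [DecidableEq L] [Fintype L] in
lemma Md.co_zero {C : Set L} {h : C.OrdConnected} (v : Md C h) {a : L} (ha : a ∉ C) :
    v.co a = 0 := (show supp C from v).2 a ha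

omit [LocallyFiniteOrder L] [DecidableEq L] [Fintype L] in
lemma Md.ext' {C : Set L} {h : C.OrdConnected} {v w : Md C h}
    (hvw : ∀ a ∈ C, v.co a = w.co a) : v = w := by
  apply Subtype.ext
  funext a
  by_cases ha : a ∈ C
  · exact hvw a ha
  · exact (v.co_zero ha).trans (w.co_zero ha).symm

/-- truncation of a function to `C` -/
noncomputable def Md.mk (C : Set L) (h : C.OrdConnected) (v : L → ℚ) : Md C h :=
  (⟨C.indicator v, fun _ ha => Set.indicator_of_notMem ha _⟩ : supp C)

omit [LocallyFiniteOrder L] [DecidableEq L] [Fintype L] in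
lemma Md.co_mk {C : Set L} (h : C.OrdConnected) (v : L → ℚ) {a : L} (ha : a ∈ C) :
    (Md.mk C h v).co a = v a := Set.indicator_of_mem ha _

omit [LocallyFiniteOrder L] [DecidableEq L] [Fintype L] in
@[simp] lemma Md.co_add {C : Set L} {h : C.OrdConnected} (v w : Md C h) (a : L) :
    (v + w).co a = v.co a + w.co a := rfl

omit [LocallyFiniteOrder L] [DecidableEq L] [Fintype L] in
@[simp] lemma Md.co_zero' {C : Set L} {h : C.OrdConnected} (a : L) :
    (0 : Md C h).co a = 0 := rfl

noncomputable instance (C : Set L) (h : C.OrdConnected) : SMul (IncidenceAlgebra ℚ L) (Md C h) :=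
  ⟨fun f v => Md.mk C h fun a => ∑ b, f a b * v.co b⟩

omit [LocallyFiniteOrder L] [DecidableEq L] in
lemma Md.co_smul {C : Set L} {h : C.OrdConnected} (f : IncidenceAlgebra ℚ L) (v : Md C h) {a : L}
    (ha : a ∈ C) : (f • v).co a = ∑ b, f a b * v.co b := Md.co_mk h _ ha

noncomputable instance (C : Set L) (h : C.OrdConnected) :
    Module (IncidenceAlgebra ℚ L) (Md C h) where
  one_smul v := Md.ext' fun a ha => by rw [Md.co_smul _ _ ha]; simp
  mul_smul f g v := Md.ext' fun a ha => by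
    rw [Md.co_smul _ _ ha, Md.co_smul _ _ ha]
    simp only [mul_apply', Finset.sum_mul]
    rw [Finset.sum_comm]
    refine Finset.sum_congr rfl fun x _ => ?_
    by_cases hx : x ∈ C
    · rw [Md.co_smul _ _ hx, Finset.mul_sum]
      simp only [mul_assoc]
    · rw [Md.co_zero _ hx, mul_zero]
      refine Finset.sum_eq_zero fun b _ => ?_
      by_cases hb : b ∈ C
      · by_cases h1 : a ≤ x
        · by_cases h2 : x ≤ b
          · exact absurd (h.out ha hb ⟨h1, h2⟩) hx
          · rw [IncidenceAlgebra.apply_eq_zero_of_not_le h2 g]; simp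
        · rw [IncidenceAlgebra.apply_eq_zero_of_not_le h1 f]; simp
      · rw [Md.co_zero _ hb, mul_zero]
  smul_zero f := Md.ext' fun a ha => by rw [Md.co_smul _ _ ha]; simp
  smul_add f v w := Md.ext' fun a ha => by
    rw [Md.co_add, Md.co_smul _ _ ha, Md.co_smul _ _ ha, Md.co_smul _ _ ha]
    simp [mul_add, Finset.sum_add_distrib]
  add_smul f g v := Md.ext' fun a ha => by
    rw [Md.co_add, Md.co_smul _ _ ha, Md.co_smul _ _ ha, Md.co_smul _ _ ha]
    simp [add_mul, Finset.sum_add_distrib]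
  zero_smul v := Md.ext' fun a ha => by rw [Md.co_smul _ _ ha]; simp

/-- the transfer map between two such modules -/
noncomputable def tr {C D : Set L} (hC : C.OrdConnected) (hD : D.OrdConnected)
    (h : ∀ a ∈ D, ∀ b ∈ C, a ≤ b → (a ∈ C ↔ b ∈ D)) :
    Md C hC →ₗ[IncidenceAlgebra ℚ L] Md D hD where
  toFun v := Md.mk D hD v.co
  map_add' v w := Md.ext' fun a ha => by
    rw [Md.co_add, Md.co_mk _ _ ha, Md.co_mk _ _ ha, Md.co_mk _ _ ha, Md.co_add]
  map_smul' f v := Md.ext' fun a ha => by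
    rw [RingHom.id_apply, Md.co_mk _ _ ha, Md.co_smul _ _ ha]
    by_cases haC : a ∈ C
    · rw [Md.co_smul _ _ haC]
      refine Finset.sum_congr rfl fun b _ => ?_
      by_cases hb : b ∈ D
      · rw [Md.co_mk _ _ hb]
      · rw [Md.co_zero _ hb, mul_zero]
        by_cases hbC : b ∈ C
        · by_cases hab : a ≤ b
          · exact absurd ((h a ha b hbC hab).1 haC) hb
          · rw [IncidenceAlgebra.apply_eq_zero_of_not_le hab f, zero_mul]
        · rw [Md.co_zero _ hbC, mul_zero]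
    · rw [Md.co_zero _ haC]
      refine (Finset.sum_eq_zero fun b _ => ?_).symm
      by_cases hb : b ∈ D
      · rw [Md.co_mk _ _ hb]
        by_cases hbC : b ∈ C
        · by_cases hab : a ≤ b
          · exact absurd ((h a ha b hbC hab).2 hb) haC
          · rw [IncidenceAlgebra.apply_eq_zero_of_not_le hab f, zero_mul]
        · rw [Md.co_zero _ hbC, mul_zero]
      · rw [Md.co_zero _ hb, mul_zero]

lemma co_tr {C D : Set L} (hC : C.OrdConnected) (hD : D.OrdConnected)
    (h : ∀ a ∈ D, ∀ b ∈ C, a ≤ b → (a ∈ C ↔ b ∈ D)) (v : Md C hC) {a : L} (ha : a ∈ D) :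
    (tr hC hD h v).co a = v.co a := Md.co_mk _ _ ha

/-- the module attached to `C` as an object of the module category -/
noncomputable abbrev M (C : Set L) (h : C.OrdConnected) : ModuleCat.{0} (IncidenceAlgebra ℚ L) :=
  ModuleCat.of _ (Md C h)

/-- all degree `n` extension classes from `X` to `Y` vanish -/
def VanX (X Y : ModuleCat.{0} (IncidenceAlgebra ℚ L)) (n : ℕ) : Prop := ∀ e : Ext X Y n, e = 0

omit [Fintype L] in
lemma VanX.retract {X X' Y : ModuleCat.{0} (IncidenceAlgebra ℚ L)} {n : ℕ} (h : VanX X' Y n)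
    (i : X ⟶ X') (r : X' ⟶ X) (hir : i ≫ r = 𝟙 X) : VanX X Y n := by
  intro e
  rw [← e.mk₀_id_comp, ← hir, ← Ext.mk₀_comp_mk₀, Ext.comp_assoc_of_second_deg_zero,
    h ((Ext.mk₀ r).comp e (zero_add n)), Ext.comp_zero]

/-- vanishing of `Ext^n (ℚ^C, Y)` -/
def Van (Y : ModuleCat.{0} (IncidenceAlgebra ℚ L)) (n : ℕ) (C : Set L) : Prop :=
  ∀ h : C.OrdConnected, VanX (M C h) Y n

lemma exists_ses {C D U : Set L} (hC : C.OrdConnected) (hD : D.OrdConnected)
    (hU : U.OrdConnected) (hDU : ∀ a, a ∈ C ↔ a ∈ D ∨ a ∈ U)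
    (hle : ∀ a ∈ U, ∀ b ∈ D, ¬ a ≤ b) :
    ∃ (f : M D hD ⟶ M C hC) (g : M C hC ⟶ M U hU) (w : f ≫ g = 0),
      (ShortComplex.mk f g w).ShortExact := by
  have hdis : ∀ a ∈ U, a ∉ D := fun a ha hb => hle a ha a hb le_rfl
  have h1 : ∀ a ∈ C, ∀ b ∈ D, a ≤ b → (a ∈ D ↔ b ∈ C) := by
    intro a ha b hb hab
    refine ⟨fun _ => (hDU b).2 (Or.inl hb), fun _ => ?_⟩
    rcases (hDU a).1 ha with h | h
    · exact h
    · exact absurd hab (hle a h b hb)
  have h2 : ∀ a ∈ U, ∀ b ∈ C, a ≤ b → (a ∈ C ↔ b ∈ U) := by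
    intro a ha b hb hab
    refine ⟨fun _ => ?_, fun _ => (hDU a).2 (Or.inr ha)⟩
    rcases (hDU b).1 hb with h | h
    · exact absurd hab (hle a ha b h)
    · exact h
  have hz : ∀ v, tr hC hU h2 (tr hD hC h1 v) = 0 := fun v => Md.ext' fun a ha => by
    rw [co_tr _ _ _ _ ha, co_tr _ _ _ _ ((hDU a).2 (Or.inr ha)), Md.co_zero _ (hdis a ha)]
    rfl
  refine ⟨ModuleCat.ofHom (tr hD hC h1), ModuleCat.ofHom (tr hC hU h2), ?_, ?_⟩
  · ext v; exact hz v
  · refine ModuleCat.shortComplex_shortExact _ ?_ ?_ ?_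
    · intro v
      constructor
      · intro hv
        refine ⟨Md.mk D hD (Md.co (h := hC) v), Md.ext' (h := hC) fun a ha => ?_⟩
        change (tr hD hC h1 _).co a = _
        rw [co_tr _ _ _ _ ha]
        rcases (hDU a).1 ha with h | h
        · rw [Md.co_mk _ _ h]
        · rw [Md.co_zero _ (hdis a h)]
          have := congrArg (fun w => Md.co (h := hU) w a) (show tr hC hU h2 v = 0 from hv)
          simp only [co_tr _ _ _ _ h] at this
          exact this.symm
      · rintro ⟨w, rfl⟩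
        exact hz w
    · intro v w hvw
      refine Md.ext' (h := hD) fun a ha => ?_
      have := congrArg (fun w => Md.co (h := hC) w a) (show tr hD hC h1 v = tr hD hC h1 w from hvw)
      simpa only [co_tr _ _ _ _ ((hDU a).2 (Or.inl ha))] using this
    · intro v
      refine ⟨Md.mk C hC (Md.co (h := hU) v), Md.ext' (h := hU) fun a ha => ?_⟩
      change (tr hC hU h2 _).co a = _
      rw [co_tr _ _ _ _ ha, Md.co_mk _ _ ((hDU a).2 (Or.inr ha))]

omit [LocallyFiniteOrder L] [DecidableEq L] [Fintype L] in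
lemma conv_lower {C D U : Set L} (hC : C.OrdConnected) (hDU : ∀ a, a ∈ C ↔ a ∈ D ∨ a ∈ U)
    (hle : ∀ a ∈ U, ∀ b ∈ D, ¬ a ≤ b) : D.OrdConnected := by
  refine ⟨fun x hx y hy z hz => ?_⟩
  rcases (hDU z).1 (hC.out ((hDU x).2 (Or.inl hx)) ((hDU y).2 (Or.inl hy)) hz) with h | h
  · exact h
  · exact absurd hz.2 (hle z h y hy)

omit [LocallyFiniteOrder L] [DecidableEq L] [Fintype L] in
lemma conv_upper {C D U : Set L} (hC : C.OrdConnected) (hDU : ∀ a, a ∈ C ↔ a ∈ D ∨ a ∈ U)
    (hle : ∀ a ∈ U, ∀ b ∈ D, ¬ a ≤ b) : U.OrdConnected := by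
  refine ⟨fun x hx y hy z hz => ?_⟩
  rcases (hDU z).1 (hC.out ((hDU x).2 (Or.inr hx)) ((hDU y).2 (Or.inr hy)) hz) with h | h
  · exact absurd hz.1 (hle x hx z h)
  · exact h

variable {Y : ModuleCat.{0} (IncidenceAlgebra ℚ L)}

lemma van_mid {C D U : Set L} (hDU : ∀ a, a ∈ C ↔ a ∈ D ∨ a ∈ U)
    (hle : ∀ a ∈ U, ∀ b ∈ D, ¬ a ≤ b) {n : ℕ} (h1 : Van Y n D) (h2 : Van Y n U) : Van Y n C := by
  intro hC e
  obtain ⟨f, g, w, hS⟩ := exists_ses hC (conv_lower hC hDU hle) (conv_upper hC hDU hle) hDU hle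
  obtain ⟨x, rfl⟩ := Ext.contravariant_sequence_exact₂ hS Y e (h1 _ _)
  rw [h2 _ x, Ext.comp_zero]

lemma van_upper {C D U : Set L} (hC : C.OrdConnected) (hDU : ∀ a, a ∈ C ↔ a ∈ D ∨ a ∈ U)
    (hle : ∀ a ∈ U, ∀ b ∈ D, ¬ a ≤ b) {n : ℕ} (h1 : ∀ m, m + 1 = n → Van Y m D)
    (h2 : Van Y n C) : Van Y n U := by
  intro hU e
  obtain ⟨f, g, w, hS⟩ := exists_ses hC (conv_lower hC hDU hle) hU hDU hle
  rcases n with _ | n
  · have := hS.epi_g
    apply Ext.precomp_mk₀_injective_of_epi Y g
    exact (h2 hC _).trans (h2 hC _).symm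
  · obtain ⟨x, rfl⟩ := Ext.contravariant_sequence_exact₃ hS Y e (h2 _ _) (add_comm 1 n)
    rw [h1 n rfl _ x, Ext.comp_zero]

lemma van_lower {C D U : Set L} (hC : C.OrdConnected) (hDU : ∀ a, a ∈ C ↔ a ∈ D ∨ a ∈ U)
    (hle : ∀ a ∈ U, ∀ b ∈ D, ¬ a ≤ b) {n : ℕ} (h1 : Van Y n C)
    (h2 : Van Y (n + 1) U) : Van Y n D := by
  intro hD e
  obtain ⟨f, g, w, hS⟩ := exists_ses hC hD (conv_upper hC hDU hle) hDU hle
  obtain ⟨x, rfl⟩ := Ext.contravariant_sequence_exact₁ hS Y e (add_comm 1 n) (h2 _ _)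
  rw [h1 _ x, Ext.comp_zero]

lemma van_empty (n : ℕ) : Van Y n (∅ : Set L) := by
  intro h e
  have : 𝟙 (M (∅ : Set L) h) = 0 := by
    ext v; exact Md.ext' (h := h) fun a ha => absurd ha (Set.notMem_empty a)
  rw [← e.mk₀_id_comp, this, Ext.mk₀_zero, Ext.zero_comp]

lemma van_of_fibers (c : L → L) (hc : Monotone c) {n : ℕ} (C : Set L)
    (h : ∀ b, Van Y n {x | x ∈ C ∧ c x = b}) : Van Y n C := by
  induction C using WellFoundedLT.induction with
  | ind C ih =>
  rcases C.eq_empty_or_nonempty with rfl | hne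
  · exact van_empty n
  obtain ⟨b, ⟨x0, hx0, rfl⟩, hb⟩ := (Set.toFinite (c '' C)).exists_maximal (hne.image c)
  refine van_mid (D := {x | x ∈ C ∧ c x ≠ c x0}) (U := {x | x ∈ C ∧ c x = c x0}) ?_ ?_ ?_ (h _)
  · intro a; simp only [Set.mem_ofPred_eq]; tauto
  · rintro a ⟨ha, hab⟩ y ⟨hy, hyb⟩ hay
    have h1 : c x0 ≤ c y := hab ▸ hc hay
    exact hyb (le_antisymm (hb ⟨y, hy, rfl⟩ h1) h1)
  · refine ih _ ⟨fun x hx => hx.1, fun hh => (hh hx0).2 rfl⟩ fun b => ?_
    by_cases hb' : b = c x0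
    · convert van_empty (Y := Y) n using 1
      ext x
      simp only [Set.mem_ofPred_eq, Set.mem_empty_iff_false, iff_false]
      rintro ⟨⟨-, h1⟩, h2⟩
      exact h1 (h2.trans hb')
    · convert h b using 1
      ext x
      simp only [Set.mem_ofPred_eq]
      constructor
      · rintro ⟨⟨h1, -⟩, h2⟩; exact ⟨h1, h2⟩
      · rintro ⟨h1, h2⟩; exact ⟨⟨h1, fun h3 => hb' (h2.symm.trans h3)⟩, h2⟩

lemma van_of_points {n : ℕ} (C : Set L) (h : ∀ x ∈ C, Van Y n {x}) : Van Y n C := by
  refine van_of_fibers id monotone_id C fun b => ?_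
  by_cases hb : b ∈ C
  · convert h b hb using 1
    ext x
    simp only [Set.mem_ofPred_eq, id, Set.mem_singleton_iff]
    exact ⟨fun h => h.2, fun h => ⟨h ▸ hb, h⟩⟩
  · convert van_empty (Y := Y) n using 1
    ext x
    simp only [Set.mem_ofPred_eq, id, Set.mem_empty_iff_false, iff_false]
    rintro ⟨h1, rfl⟩
    exact hb h1

lemma van_point_of_antichain {n : ℕ} {C : Set L} (hC : IsAntichain (· ≤ ·) C) {y : L}
    (hy : y ∈ C) (h : Van Y n C) : Van Y n {y} := by
  intro h1
  have hC' : C.OrdConnected := hC.ordConnected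
  have e1 : ∀ a ∈ C, ∀ b ∈ ({y} : Set L), a ≤ b → (a ∈ ({y} : Set L) ↔ b ∈ C) := by
    rintro a ha b rfl hab
    exact ⟨fun _ => hy, fun _ => hC.eq ha hy hab⟩
  have e2 : ∀ a ∈ ({y} : Set L), ∀ b ∈ C, a ≤ b → (a ∈ C ↔ b ∈ ({y} : Set L)) := by
    rintro a rfl b hb hab
    exact ⟨fun _ => (hC.eq hy hb hab).symm, fun _ => hy⟩
  refine (h hC').retract (ModuleCat.ofHom (tr h1 hC' e1)) (ModuleCat.ofHom (tr hC' h1 e2)) ?_
  ext v
  refine Md.ext' (h := h1) fun a ha => ?_
  change (tr hC' h1 e2 (tr h1 hC' e1 v)).co a = Md.co (h := h1) v a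
  rw [co_tr _ _ _ _ ha, co_tr _ _ _ _ (show a ∈ C from ha ▸ hy)]

/-- a column vector as an element of the incidence algebra -/
noncomputable def col (H : L) :
    Md (Set.Iic H) Set.ordConnected_Iic →ₗ[IncidenceAlgebra ℚ L] IncidenceAlgebra ℚ L where
  toFun v := ⟨fun a b => if b = H then v.co a else 0, fun a b hab => by
    split_ifs with h
    · subst h; exact v.co_zero hab
    · rfl⟩
  map_add' v w := by
    ext a b _
    change (if b = H then (v + w).co a else 0) =
      (if b = H then v.co a else 0) + (if b = H then w.co a else 0)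
    split_ifs <;> simp
  map_smul' f v := by
    ext a b hab
    rw [RingHom.id_apply, smul_eq_mul, mul_apply']
    change (if b = H then _ else 0) = ∑ x, f a x * (if b = H then _ else 0)
    split_ifs with h
    · subst h; exact Md.co_smul _ _ hab
    · simp

/-- the `H`-th column of an element of the incidence algebra -/
noncomputable def uncol (H : L) :
    IncidenceAlgebra ℚ L →ₗ[IncidenceAlgebra ℚ L] Md (Set.Iic H) Set.ordConnected_Iic where
  toFun f := Md.mk _ _ fun a => f a H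
  map_add' f g := Md.ext' fun a ha => by
    rw [Md.co_add, Md.co_mk _ _ ha, Md.co_mk _ _ ha, Md.co_mk _ _ ha]; rfl
  map_smul' f g := Md.ext' fun a ha => by
    rw [RingHom.id_apply, Md.co_mk _ _ ha, Md.co_smul _ _ ha, smul_eq_mul, mul_apply']
    refine Finset.sum_congr rfl fun x _ => ?_
    by_cases hx : x ∈ Set.Iic H
    · rw [Md.co_mk _ _ hx]
    · rw [Md.co_zero _ hx, IncidenceAlgebra.apply_eq_zero_of_not_le hx g]

lemma uncol_col (H : L) (v : Md (Set.Iic H) Set.ordConnected_Iic) : uncol H (col H v) = v :=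
  Md.ext' fun a ha => by
    change (Md.mk _ _ fun a => if H = H then v.co a else 0).co a = _
    rw [Md.co_mk _ _ ha, if_pos rfl]

lemma van_Iic_succ (H : L) (n : ℕ) : Van Y (n + 1) (Set.Iic H) := by
  intro h e
  have : Module.Projective (IncidenceAlgebra ℚ L) (Md (Set.Iic H) h) :=
    Module.Projective.of_split (col H) (uncol H) (by ext v; exact uncol_col H v)
  exact e.eq_zero_of_projective

omit [Fintype L] in
lemma simple_smul (K : L) (f : IncidenceAlgebra ℚ L) (q : simpleMod K) :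
    f • q = (f K K * (show ℚ from q) : ℚ) := rfl

lemma van_Iic {H K : L} (hHK : H ≠ K) (n : ℕ) : Van (simpleMod K) n (Set.Iic H) := by
  rcases n with _ | n
  · intro h e
    obtain ⟨φ, rfl⟩ := Ext.addEquiv₀.symm.surjective e
    have : φ = 0 := by
      ext v
      have h1 : v = col H v • uncol H 1 := by
        rw [← map_smul, smul_eq_mul, mul_one, uncol_col]
      rw [h1, map_smul, simple_smul]
      have h2 : (col H v) K K = 0 := if_neg hHK.symm
      rw [h2, zero_mul]
      rfl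
    rw [this, map_zero]
  · exact van_Iic_succ H n

/-- identification of the module attached to a point with the simple module -/
noncomputable def toSimple (K : L) :
    Md {K} Set.ordConnected_singleton →ₗ[IncidenceAlgebra ℚ L] simpleMod K where
  toFun v := v.co K
  map_add' _ _ := rfl
  map_smul' f v := by
    rw [RingHom.id_apply, simple_smul, Md.co_smul _ _ (Set.mem_singleton K),
      Finset.sum_eq_single K]
    · intro b _ hb
      rw [Md.co_zero (a := b) v hb, mul_zero]
    · simp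

/-- the inverse identification -/
noncomputable def ofSimple (K : L) :
    simpleMod K →ₗ[IncidenceAlgebra ℚ L] Md {K} Set.ordConnected_singleton where
  toFun q := Md.mk _ _ fun _ => (show ℚ from q)
  map_add' _ _ := Md.ext' fun a ha => by
    rw [Md.co_add, Md.co_mk _ _ ha, Md.co_mk _ _ ha, Md.co_mk _ _ ha]; rfl
  map_smul' f q := Md.ext' fun a ha => by
    have haK : a = K := ha
    rw [RingHom.id_apply, Md.co_mk _ _ ha, Md.co_smul _ _ ha, Finset.sum_eq_single a,
      Md.co_mk _ _ ha]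
    · rw [haK]; rfl
    · intro b _ hb
      rw [Md.co_zero (a := b) _ (fun hh => hb ((show b = K from hh).trans haK.symm)), mul_zero]
    · simp

lemma van_point_iff (H : L) (n : ℕ) : Van Y n {H} ↔ VanX (simpleMod H) Y n := by
  constructor
  · intro h
    refine (h Set.ordConnected_singleton).retract (X := simpleMod H)
      (ModuleCat.ofHom (X := simpleMod H) (ofSimple H))
      (ModuleCat.ofHom (Y := simpleMod H) (toSimple H)) ?_
    ext q
    exact Md.co_mk Set.ordConnected_singleton (fun _ => (show ℚ from q)) (Set.mem_singleton H)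
  · intro h h1
    refine h.retract (ModuleCat.ofHom (Y := simpleMod H) (toSimple H))
      (ModuleCat.ofHom (X := simpleMod H) (ofSimple H)) ?_
    ext v
    refine Md.ext' (h := h1) fun a ha => ?_
    obtain rfl : a = H := ha
    exact Md.co_mk Set.ordConnected_singleton (fun _ => Md.co (h := h1) v a) (Set.mem_singleton a)

lemma not_van_zero (K : L) : ¬ Van (simpleMod K) 0 {K} := by
  rw [van_point_iff]
  intro h
  have h1 := (Ext.mk₀_eq_zero_iff _).1 (h (Ext.mk₀ (𝟙 _)))
  have h2 := congrArg (fun φ : simpleMod K ⟶ simpleMod K => φ.hom (1 : ℚ)) h1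
  exact one_ne_zero (α := ℚ) h2

end Pool.Agent.Lib.MP_70614a_al
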